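import Pool.Agent.V11210.ZZ.Meas2
import Pool.Agent.V11210.NA.One
import Pool.Agent.TH456.TM.Close

/-!
# Near relations `α(ζ(2)) ζ(3) + β(ζ(2))`
-/

set_option autoImplicit false

namespace Pool.Agent.V11210.ZZ

open Polynomial Pool.Agent.TH456.TM

lemma measT_zeta_two : MeasT ((zeta 2 : ℝ) : ℂ) := by
  have h1 := measT_pow measT_pi 2 (by norm_num)
  have h6 : IsAlgebraic ℤ ((1 / 6 : ℂ)) := by
    refine ⟨C 6 * X - C 1, ?_, ?_⟩
    · intro h
      have h2 := congrArg (fun p : ℤ[X] => p.eval 0) h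
      simp only [eval_sub, eval_mul, eval_C, eval_X, eval_zero] at h2
      omega
    · rw [map_sub, map_mul, aeval_C, aeval_X, aeval_C]
      simp only [algebraMap_int_eq, eq_intCast]
      norm_num
  have h2 := measT_mul_alg h1 (1 / 6) h6 (by norm_num)
  have e : ((zeta 2 : ℝ) : ℂ) = (Real.pi : ℂ) ^ 2 * (1 / 6) := by
    rw [zeta_two]
    push_cast
    ring
  rw [e]
  exact h2

theorem allw (D : ℕ) : ∃ κ c : ℝ, 0 < κ ∧ 0 < c ∧ ∀ H : ℝ, 1 ≤ H → ∃ α₀ β₀ : ℤ[X],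
    ∀ α β : ℤ[X], α.natDegree ≤ D → β.natDegree ≤ D → (∀ i, |(α.coeff i : ℝ)| ≤ H) → (∀ i, |(β.coeff i : ℝ)| ≤ H) →
      (α ≠ 0 ∨ β ≠ 0) → |aeval (zeta 2) α * zeta 3 + aeval (zeta 2) β| < c * H ^ (-κ) →
      (∃ g : ℤ[X], α = g * α₀ ∧ β = g * β₀) ∧ (1 ≤ α₀.natDegree ∨ 2 ≤ β₀.natDegree) := by
  obtain ⟨κ₀, hκ₀, hP⟩ := Pool.Agent.V11210.NA.principal _ measT_zeta_two (max D 1)
  obtain ⟨c₀, hc₀, hP⟩ := hP ‖((zeta 3 : ℝ) : ℂ)‖
  obtain ⟨κ₂, c₂, hκ₂, hc₂, hM⟩ := measT_zeta_two D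
  obtain ⟨c₁, hc₁, k₁, hM1⟩ := meas1
  refine ⟨κ₀ + (κ₂ + k₁), min c₀ (c₁ * c₂), by positivity, by positivity, fun H hH => ?_⟩
  have hH0 : 0 < H := by linarith
  obtain ⟨F, hF1, hF2, hF⟩ := hP _ le_rfl H hH
  refine ⟨F.coeff 1, F.coeff 0, fun α β hα hβ hαH hβH hne hL => ?_⟩
  obtain ⟨P, hPd⟩ : ∃ P : ℤ[X][X], P = C β + C α * X := ⟨_, rfl⟩
  have hco : ∀ j, P.coeff j = if j = 0 then β else if j = 1 then α else 0 := by
    intro j
    rw [hPd]
    simp only [coeff_add, coeff_C, coeff_C_mul, coeff_X]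
    split_ifs <;> first | omega | simp
  have hval : P.eval₂ (σx ((zeta 2 : ℝ) : ℂ)) ((zeta 3 : ℝ) : ℂ) =
      ((aeval (zeta 2) α * zeta 3 + aeval (zeta 2) β : ℝ) : ℂ) := by
    rw [hPd, eval₂_add, eval₂_mul, eval₂_C, eval₂_C, eval₂_X]
    have e : ∀ p : ℤ[X], σx ((zeta 2 : ℝ) : ℂ) p = ((aeval (zeta 2) p : ℝ) : ℂ) := by
      intro p
      show aeval ((zeta 2 : ℝ) : ℂ) p = _
      exact (Polynomial.aeval_algebraMap_apply (A := ℝ) ℂ (zeta 2) p)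
    rw [e, e]
    push_cast
    ring
  have hs1 : min c₀ (c₁ * c₂) * H ^ (-(κ₀ + (κ₂ + (k₁ : ℝ)))) ≤ c₀ * H ^ (-κ₀) := by
    apply mul_le_mul (min_le_left _ _) _ (by positivity) hc₀.le
    apply Real.rpow_le_rpow_of_exponent_le hH
    have : (0 : ℝ) ≤ k₁ := Nat.cast_nonneg _
    linarith
  have hs2 : min c₀ (c₁ * c₂) * H ^ (-(κ₀ + (κ₂ + (k₁ : ℝ)))) ≤ (c₁ * c₂) * H ^ (-(κ₂ + (k₁ : ℝ))) := by
    apply mul_le_mul (min_le_right _ _) _ (by positivity) (by positivity)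
    apply Real.rpow_le_rpow_of_exponent_le hH
    linarith
  have hdiv : F ∣ P := by
    refine hF P ?_ ?_ ?_ ?_
    · rw [natDegree_le_iff_coeff_eq_zero]
      intro j hj
      have h1 := le_max_right D 1
      rw [hco, if_neg (by omega), if_neg (by omega)]
    · intro j
      rw [hco]
      split_ifs
      · exact hβ.trans (le_max_left _ _)
      · exact hα.trans (le_max_left _ _)
      · simp
    · intro j i
      rw [hco]
      split_ifs
      · exact hβH i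
      · exact hαH i
      · simpa using hH0.le
    · rw [hval, Complex.norm_real, Real.norm_eq_abs]
      exact hL.trans_le hs1
  have hP0 : P ≠ 0 := by
    intro h0
    have h1 := hco 1
    have h2 := hco 0
    rw [h0] at h1 h2
    simp at h1 h2
    rcases hne with h | h
    · exact h h1.symm
    · exact h h2.symm
  obtain ⟨G, hG⟩ := hdiv
  have hF0 : F ≠ 0 := hF1.ne_zero
  have hG0 : G ≠ 0 := by
    rintro rfl
    exact hP0 (by rw [hG, mul_zero])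
  have hPn : P.natDegree ≤ 1 := by
    rw [natDegree_le_iff_coeff_eq_zero]
    intro j hj
    rw [hco, if_neg (by omega), if_neg (by omega)]
  have hnd : P.natDegree = F.natDegree + G.natDegree := by
    rw [hG, natDegree_mul hF0 hG0]
  obtain ⟨g, hg⟩ : ∃ g, G = C g := ⟨_, eq_C_of_natDegree_eq_zero (by omega)⟩
  have hα' : α = g * F.coeff 1 := by
    have h1 := hco 1
    rw [if_neg (by omega), if_pos rfl, hG, hg, coeff_mul_C] at h1
    rw [← h1, mul_comm]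
  have hβ' : β = g * F.coeff 0 := by
    have h1 := hco 0
    rw [if_pos rfl, hG, hg, coeff_mul_C] at h1
    rw [← h1, mul_comm]
  refine ⟨⟨g, hα', hβ'⟩, ?_⟩
  by_contra hcon
  push Not at hcon
  obtain ⟨hd1, hd0⟩ := hcon
  obtain ⟨a, ha⟩ : ∃ a, F.coeff 1 = C a := ⟨_, eq_C_of_natDegree_eq_zero (by omega)⟩
  obtain ⟨b₁, b₀, hb⟩ : ∃ b₁ b₀ : ℤ, F.coeff 0 = C b₁ * X + C b₀ := ⟨_, _, eq_X_add_C_of_natDegree_le_one (by omega)⟩
  have ha0 : a ≠ 0 := by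
    rintro rfl
    have : F.natDegree = 1 := by omega
    have h1 : F.leadingCoeff = 0 := by rw [leadingCoeff, this, ha, C_0]
    exact hF0 (leadingCoeff_eq_zero.1 h1)
  have hg0 : g ≠ 0 := by
    rintro rfl
    exact hG0 (by rw [hg, C_0])
  rw [ha] at hα'
  rw [hb] at hβ'
  have hαc : ∀ i, α.coeff i = g.coeff i * a := by
    intro i
    rw [hα', coeff_mul_C]
  have haR : (1 : ℝ) ≤ |(a : ℝ)| := by exact_mod_cast Int.one_le_abs ha0
  have hlead : g.coeff g.natDegree ≠ 0 := by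
    rw [coeff_natDegree]
    exact leadingCoeff_ne_zero.2 hg0
  have hleadR : (1 : ℝ) ≤ |(g.coeff g.natDegree : ℝ)| := by exact_mod_cast Int.one_le_abs hlead
  have hgH : ∀ i, |(g.coeff i : ℝ)| ≤ H := by
    intro i
    have h1 := hαH i
    rw [hαc] at h1
    push_cast at h1
    rw [abs_mul] at h1
    have := abs_nonneg (g.coeff i : ℝ)
    nlinarith
  have haH : |(a : ℝ)| ≤ H := by
    have h1 := hαH g.natDegree
    rw [hαc] at h1
    push_cast at h1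
    rw [abs_mul] at h1
    nlinarith [abs_nonneg (a : ℝ)]
  have hbH : |(b₁ : ℝ)| ≤ H := by
    have h1 := hβH (g.natDegree + 1)
    have h2 : β.coeff (g.natDegree + 1) = g.coeff g.natDegree * b₁ := by
      rw [hβ', mul_add, coeff_add, coeff_mul_C, ← mul_assoc, coeff_mul_X, coeff_mul_C,
        coeff_eq_zero_of_natDegree_lt (Nat.lt_succ_self _), zero_mul, add_zero]
    rw [h2] at h1
    push_cast at h1
    rw [abs_mul] at h1
    nlinarith [abs_nonneg (b₁ : ℝ)]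
  have hgD : g.natDegree ≤ D := by
    have h1 : α.natDegree = g.natDegree := by
      rw [hα', natDegree_mul_C ha0]
    omega
  have m1 := hM g hg0 hgD H hH hgH
  have m2 := hM1 k₁ le_rfl b₀ b₁ a H hH ha0 hbH haH
  have e1 : ‖aeval ((zeta 2 : ℝ) : ℂ) g‖ = |aeval (zeta 2) g| := by
    have : aeval ((zeta 2 : ℝ) : ℂ) g = ((aeval (zeta 2) g : ℝ) : ℂ) := Polynomial.aeval_algebraMap_apply (A := ℝ) ℂ (zeta 2) g
    rw [this, Complex.norm_real, Real.norm_eq_abs]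
  rw [e1] at m1
  have e2 : aeval (zeta 2) α * zeta 3 + aeval (zeta 2) β = aeval (zeta 2) g * ((b₀ : ℝ) + b₁ * zeta 2 + a * zeta 3) := by
    have e3 : ∀ n : ℤ, aeval (zeta 2) (C n : ℤ[X]) = (n : ℝ) := fun n => by
      rw [aeval_C]
      simp
    rw [hα', hβ', map_mul, map_mul, map_add, map_mul, aeval_X, e3, e3, e3]
    ring
  rw [e2, abs_mul] at hL
  have h5 : c₂ * c₁ ≤ (H ^ κ₂ * |aeval (zeta 2) g|) * (H ^ k₁ * |(b₀ : ℝ) + b₁ * zeta 2 + a * zeta 3|) :=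
    mul_le_mul m1 m2 hc₁.le (by positivity)
  have h6 := hL.trans_le hs2
  have h7 : H ^ (-(κ₂ + (k₁ : ℝ))) * (H ^ κ₂ * H ^ k₁) = 1 := by
    rw [← Real.rpow_natCast H k₁, ← Real.rpow_add hH0, ← Real.rpow_add hH0]
    have : -(κ₂ + (k₁ : ℝ)) + (κ₂ + k₁) = 0 := by ring
    rw [this, Real.rpow_zero]
  have h8 : |aeval (zeta 2) g| * |(b₀ : ℝ) + b₁ * zeta 2 + a * zeta 3| * (H ^ κ₂ * H ^ k₁) <
      c₁ * c₂ * H ^ (-(κ₂ + (k₁ : ℝ))) * (H ^ κ₂ * H ^ k₁) := mul_lt_mul_of_pos_right h6 (by positivity)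
  have h9 : c₁ * c₂ * H ^ (-(κ₂ + (k₁ : ℝ))) * (H ^ κ₂ * H ^ k₁) = c₁ * c₂ := by
    rw [mul_assoc, h7, mul_one]
  nlinarith

end Pool.Agent.V11210.ZZ
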