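import Mathlib

/-!
# Near linear relations between `t y, t, y, t², z` for numbers `t`, `y` with measures
-/

set_option autoImplicit false

namespace Pool.Agent.V11210.ZZ

/-- the value of the linear form -/
noncomputable def L (t y z : ℝ) (v : Fin 5 → ℤ) : ℝ :=
  v 0 * (t * y) - v 1 * t - v 2 * y - v 3 * (2 / 5 * t ^ 2) - v 4 * z

section

variable {t y z : ℝ} (ht : 1 ≤ t) (ht2 : t ≤ 2) {c : ℝ} {k : ℕ} (hc : 0 < c) (hc1 : c ≤ 1)
  (M1 : ∀ a b d : ℤ, ∀ H : ℝ, 1 ≤ H → d ≠ 0 → |(b : ℝ)| ≤ H → |(d : ℝ)| ≤ H → c ≤ H ^ k * |(a : ℝ) + b * t + d * y|)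
  (M2 : ∀ A B C : ℤ, ∀ H : ℝ, 1 ≤ H → ¬ (A = 0 ∧ B = 0 ∧ C = 0) → |(A : ℝ)| ≤ H → |(B : ℝ)| ≤ H → |(C : ℝ)| ≤ H →
    c ≤ H ^ k * |(A : ℝ) * t ^ 2 + B * t + C|)

include ht hc hc1 M1 M2

lemma one (X : ℝ) (hX : 1 ≤ X) (v : Fin 5 → ℤ) (hv : ∀ i, |(v i : ℝ)| ≤ X) (h4 : v 4 = 0) (hv0 : v ≠ 0)
    (hL : X ^ (2 * k + 1) * |L t y z v| < c ^ 2 / (30 * 14 ^ k)) :
    v 2 ≠ 0 ∧ 5 * v 0 * v 1 + 2 * v 2 * v 3 ≠ 0 := by
  have hX0 : 0 < X := by linarith
  have hpow : (5 : ℝ) ^ k ≤ 14 ^ k := pow_le_pow_left₀ (by norm_num) (by norm_num) k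
  have h5k : (0 : ℝ) < 5 ^ k := by positivity
  have h14 : (0 : ℝ) < 14 ^ k := by positivity
  have hXk : X ^ k ≤ X ^ (2 * k + 1) := pow_le_pow_right₀ hX (by omega)
  have habs : 0 ≤ |L t y z v| := abs_nonneg _
  have hXk0 : (0 : ℝ) < X ^ k := by positivity
  rw [lt_div_iff₀ (by positivity)] at hL
  have hcc : c ^ 2 ≤ c := by nlinarith
  -- a bound which is impossible
  have imp : ¬ c ≤ (5 * X) ^ k * (5 * |L t y z v|) := by
    intro h
    have h1 : (5 * X) ^ k * (5 * |L t y z v|) ≤ X ^ (2 * k + 1) * |L t y z v| * (30 * 14 ^ k) := by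
      rw [mul_pow]
      calc 5 ^ k * X ^ k * (5 * |L t y z v|) = (X ^ k * |L t y z v|) * (5 * 5 ^ k) := by ring
        _ ≤ (X ^ (2 * k + 1) * |L t y z v|) * (30 * 14 ^ k) := by
            apply mul_le_mul (mul_le_mul_of_nonneg_right hXk habs) _ (by positivity) (by positivity)
            nlinarith
    linarith
  have hb : v 2 ≠ 0 := by
    intro hb
    apply imp
    have hLeq : L t y z v = t * ((v 0 : ℝ) * y - v 1 - 2 / 5 * v 3 * t) := by
      unfold L
      rw [hb, h4]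
      push_cast
      ring
    have h5L : |(-(5 * v 1) : ℤ) + (-(2 * v 3) : ℤ) * t + ((5 * v 0 : ℤ) : ℝ) * y| ≤ 5 * |L t y z v| := by
      rw [hLeq, abs_mul, abs_of_pos (by linarith : 0 < t)]
      have e1 : (((-(5 * v 1) : ℤ) : ℝ) + ((-(2 * v 3) : ℤ) : ℝ) * t + ((5 * v 0 : ℤ) : ℝ) * y) = 5 * ((v 0 : ℝ) * y - v 1 - 2 / 5 * v 3 * t) := by
        push_cast
        ring
      rw [e1, abs_mul, abs_of_pos (by norm_num : (0 : ℝ) < 5)]
      have := abs_nonneg ((v 0 : ℝ) * y - v 1 - 2 / 5 * v 3 * t)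
      nlinarith
    have hb3 : |((-(2 * v 3) : ℤ) : ℝ)| ≤ 5 * X := by
      push_cast
      rw [abs_neg, abs_mul, abs_two]
      have := hv 3
      linarith
    by_cases hq : v 0 = 0
    · have h2 := M2 0 (-(2 * v 3)) (-(5 * v 1)) (5 * X) (by linarith) (by
        rintro ⟨-, h3, h1⟩
        apply hv0
        funext i
        fin_cases i
        · exact hq
        · show v 1 = 0
          omega
        · exact hb
        · show v 3 = 0
          omega
        · exact h4) (by simp; linarith) hb3 (by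
        push_cast
        rw [abs_neg, abs_mul, abs_of_pos (by norm_num : (0 : ℝ) < 5)]
        have := hv 1
        linarith)
      refine h2.trans ?_
      apply mul_le_mul_of_nonneg_left _ (by positivity)
      refine le_trans (le_of_eq ?_) h5L
      rw [hq]
      push_cast
      congr 1
      ring
    · have h2 := M1 (-(5 * v 1)) (-(2 * v 3)) (5 * v 0) (5 * X) (by linarith) (by omega) hb3 (by
        push_cast
        rw [abs_mul, abs_of_pos (by norm_num : (0 : ℝ) < 5)]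
        have := hv 0
        linarith)
      refine h2.trans ?_
      apply mul_le_mul_of_nonneg_left h5L (by positivity)
  refine ⟨hb, fun hD => ?_⟩
  have hDR : 5 * (v 0 : ℝ) * v 1 + 2 * v 2 * v 3 = 0 := by exact_mod_cast hD
  have e : (v 2 : ℝ) * L t y z v = ((v 0 : ℝ) * t - v 2) * ((v 1 : ℝ) * t + v 2 * y) := by
    unfold L
    rw [h4]
    push_cast
    linear_combination (-(1 / 5) * t ^ 2) * hDR
  have h1 := M1 0 (v 1) (v 2) X hX hb (hv 1) (hv 2)
  have h2 := M2 0 (v 0) (-(v 2)) X hX (by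
    rintro ⟨-, -, h3⟩
    omega) (by simp; linarith) (hv 0) (by
    push_cast
    rw [abs_neg]
    exact hv 2)
  have e1 : |((0 : ℤ) : ℝ) + (v 1 : ℝ) * t + (v 2 : ℝ) * y| = |(v 1 : ℝ) * t + v 2 * y| := by
    congr 1
    push_cast
    ring
  have e2 : |((0 : ℤ) : ℝ) * t ^ 2 + (v 0 : ℝ) * t + ((-(v 2) : ℤ) : ℝ)| = |(v 0 : ℝ) * t - v 2| := by
    congr 1
    push_cast
    ring
  rw [e1] at h1
  rw [e2] at h2
  have h3 : c * c ≤ (X ^ k * |(v 0 : ℝ) * t - v 2|) * (X ^ k * |(v 1 : ℝ) * t + v 2 * y|) :=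
    mul_le_mul h2 h1 hc.le (by positivity)
  have h4' : (X ^ k * |(v 0 : ℝ) * t - v 2|) * (X ^ k * |(v 1 : ℝ) * t + v 2 * y|) = X ^ (2 * k) * (|(v 2 : ℝ)| * |L t y z v|) := by
    rw [← abs_mul (v 2 : ℝ), e, abs_mul]
    ring
  have h5 : X ^ (2 * k) * (|(v 2 : ℝ)| * |L t y z v|) ≤ X ^ (2 * k + 1) * |L t y z v| := by
    rw [pow_succ, mul_assoc]
    apply mul_le_mul_of_nonneg_left _ (by positivity)
    exact mul_le_mul_of_nonneg_right (hv 2) habs
  have h6 : X ^ (2 * k + 1) * |L t y z v| ≤ X ^ (2 * k + 1) * |L t y z v| * (30 * 14 ^ k) := by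
    apply le_mul_of_one_le_right (by positivity)
    have : (1 : ℝ) ≤ 14 ^ k := one_le_pow₀ (by norm_num)
    linarith
  rw [h4'] at h3
  nlinarith

include ht2

lemma two (X : ℝ) (hX : 1 ≤ X) (v w : Fin 5 → ℤ) (hv : ∀ i, |(v i : ℝ)| ≤ X) (hw : ∀ i, |(w i : ℝ)| ≤ X)
    (h4 : v 4 = 0) (h4' : w 4 = 0)
    (hL : X ^ (2 * k + 1) * |L t y z v| < c ^ 2 / (30 * 14 ^ k))
    (hL' : X ^ (2 * k + 1) * |L t y z w| < c ^ 2 / (30 * 14 ^ k)) :
    ∀ i j, v i * w j = v j * w i := by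
  by_cases hv0 : v = 0
  · intro i j
    rw [hv0]
    simp
  by_cases hw0 : w = 0
  · intro i j
    rw [hw0]
    simp
  obtain ⟨b0, D0⟩ := one ht hc hc1 M1 M2 X hX v hv h4 hv0 hL
  obtain ⟨b1, D1⟩ := one ht hc hc1 M1 M2 X hX w hw h4' hw0 hL'
  obtain ⟨A, hA⟩ : ∃ A, A = 2 * (v 0 * w 3 - w 0 * v 3) := ⟨_, rfl⟩
  obtain ⟨B, hB⟩ : ∃ B, B = 5 * (v 0 * w 1 - w 0 * v 1) - 2 * (v 2 * w 3 - w 2 * v 3) := ⟨_, rfl⟩
  obtain ⟨C, hC⟩ : ∃ C, C = -5 * (v 2 * w 1 - w 2 * v 1) := ⟨_, rfl⟩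
  have hX0 : 0 < X := by linarith
  have hprod : ∀ i j, |(v i : ℝ) * w j| ≤ X ^ 2 := by
    intro i j
    rw [abs_mul, sq]
    exact mul_le_mul (hv i) (hw j) (abs_nonneg _) hX0.le
  have key : A = 0 ∧ B = 0 ∧ C = 0 := by
    by_contra hne
    have hm := M2 A B C (14 * X ^ 2) (by nlinarith) hne (by
      rw [hA]
      push_cast
      have h1 := abs_le.1 (hprod 0 3)
      have h2 := abs_le.1 (hprod 3 0)
      rw [abs_le]
      constructor <;> nlinarith [sq_nonneg X]) (by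
      rw [hB]
      push_cast
      have h1 := abs_le.1 (hprod 0 1)
      have h2 := abs_le.1 (hprod 1 0)
      have h3 := abs_le.1 (hprod 2 3)
      have h4 := abs_le.1 (hprod 3 2)
      rw [abs_le]
      constructor <;> nlinarith [sq_nonneg X]) (by
      rw [hC]
      push_cast
      have h1 := abs_le.1 (hprod 2 1)
      have h2 := abs_le.1 (hprod 1 2)
      rw [abs_le]
      constructor <;> nlinarith [sq_nonneg X])
    have e : t * ((A : ℝ) * t ^ 2 + B * t + C) = 5 * (((w 0 : ℝ) * t - w 2) * L t y z v - ((v 0 : ℝ) * t - v 2) * L t y z w) := by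
      rw [hA, hB, hC]
      unfold L
      rw [h4, h4']
      push_cast
      ring
    obtain ⟨η, hη⟩ : ∃ η, η = c ^ 2 / (30 * 14 ^ k) / X ^ (2 * k + 1) := ⟨_, rfl⟩
    have hXK : (0 : ℝ) < X ^ (2 * k + 1) := by positivity
    have l1 : |L t y z v| < η := by rw [hη, lt_div_iff₀ hXK]; linarith
    have l2 : |L t y z w| < η := by rw [hη, lt_div_iff₀ hXK]; linarith
    have hal : ∀ u : Fin 5 → ℤ, (∀ i, |(u i : ℝ)| ≤ X) → |(u 0 : ℝ) * t - u 2| ≤ 3 * X := by
      intro u hu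
      have h1 := abs_le.1 (hu 0)
      have h2 := abs_le.1 (hu 2)
      rw [abs_le]
      constructor <;> nlinarith
    have l3 : |t * ((A : ℝ) * t ^ 2 + B * t + C)| < 30 * X * η := by
      rw [e, abs_mul, abs_of_pos (by norm_num : (0 : ℝ) < 5)]
      have h1 : |((w 0 : ℝ) * t - w 2) * L t y z v| ≤ 3 * X * |L t y z v| := by
        rw [abs_mul]
        exact mul_le_mul_of_nonneg_right (hal w hw) (abs_nonneg _)
      have h2 : |((v 0 : ℝ) * t - v 2) * L t y z w| ≤ 3 * X * |L t y z w| := by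
        rw [abs_mul]
        exact mul_le_mul_of_nonneg_right (hal v hv) (abs_nonneg _)
      have h3 := abs_sub (((w 0 : ℝ) * t - w 2) * L t y z v) (((v 0 : ℝ) * t - v 2) * L t y z w)
      have h4 : 3 * X * |L t y z v| < 3 * X * η := mul_lt_mul_of_pos_left l1 (by positivity)
      have h5 : 3 * X * |L t y z w| < 3 * X * η := mul_lt_mul_of_pos_left l2 (by positivity)
      linarith
    have l4 : |(A : ℝ) * t ^ 2 + B * t + C| ≤ |t * ((A : ℝ) * t ^ 2 + B * t + C)| := by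
      rw [abs_mul, abs_of_pos (by linarith : 0 < t)]
      exact le_mul_of_one_le_left (abs_nonneg _) ht
    have l5 : c < (14 * X ^ 2) ^ k * (30 * X * η) := by
      refine hm.trans_lt ?_
      apply mul_lt_mul_of_pos_left (l4.trans_lt l3) (by positivity)
    have l6 : (14 * X ^ 2) ^ k * (30 * X * η) = c ^ 2 := by
      rw [hη, mul_pow, ← pow_mul]
      have : X ^ (2 * k + 1) = X ^ (2 * k) * X := pow_succ _ _
      rw [this]
      field_simp
    rw [l6] at l5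
    nlinarith
  obtain ⟨a0, bb0, c0⟩ := key
  rw [hA] at a0
  rw [hB] at bb0
  rw [hC] at c0
  have E1 : v 0 * w 3 = w 0 * v 3 := by omega
  have E3 : v 2 * w 1 = w 2 * v 1 := by omega
  have E2 : 5 * (v 0 * w 1 - w 0 * v 1) = 2 * (v 2 * w 3 - w 2 * v 3) := by omega
  -- the minors
  have m1 : v 0 * w 2 - w 0 * v 2 = 0 := by
    have h1 : (5 * v 0 * v 1 + 2 * v 2 * v 3) * (v 0 * w 2 - w 0 * v 2) = 0 := by
      linear_combination (v 0 * v 2) * E2 - 5 * v 0 ^ 2 * E3 + 2 * v 2 ^ 2 * E1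
    exact (mul_eq_zero.1 h1).resolve_left D0
  have m2 : v 2 * w 3 - w 2 * v 3 = 0 := by
    have h1 : v 2 * (v 2 * w 3 - w 2 * v 3) = 0 := by
      have h2 : 2 * (v 2 * (v 2 * w 3 - w 2 * v 3)) = 0 := by
        linear_combination (-(v 2)) * E2 + 5 * v 0 * E3 + 5 * v 1 * m1
      omega
    exact (mul_eq_zero.1 h1).resolve_left b0
  have m3 : v 0 * w 1 - w 0 * v 1 = 0 := by
    have h1 : v 2 * (v 0 * w 1 - w 0 * v 1) = 0 := by
      linear_combination v 0 * E3 + v 1 * m1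
    exact (mul_eq_zero.1 h1).resolve_left b0
  have m4 : v 1 * w 3 - w 1 * v 3 = 0 := by
    have h1 : v 2 * (v 1 * w 3 - w 1 * v 3) = 0 := by
      linear_combination v 1 * m2 - v 3 * E3
    exact (mul_eq_zero.1 h1).resolve_left b0
  have s : ∀ i j : Fin 5, v i * w j = v j * w i → v j * w i = v i * w j := fun _ _ h => h.symm
  have p01 : v 0 * w 1 = v 1 * w 0 := by linarith
  have p02 : v 0 * w 2 = v 2 * w 0 := by linarith
  have p03 : v 0 * w 3 = v 3 * w 0 := by linarith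
  have p12 : v 1 * w 2 = v 2 * w 1 := by linarith
  have p13 : v 1 * w 3 = v 3 * w 1 := by linarith
  have p23 : v 2 * w 3 = v 3 * w 2 := by linarith
  have q4 : ∀ i : Fin 5, v i * w 4 = v 4 * w i := fun i => by rw [h4, h4']; simp
  intro i j
  fin_cases i <;> fin_cases j
  · rfl
  · exact p01
  · exact p02
  · exact p03
  · exact q4 0
  · exact p01.symm
  · rfl
  · exact p12
  · exact p13
  · exact q4 1
  · exact p02.symm
  · exact p12.symm
  · rfl
  · exact p23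
  · exact q4 2
  · exact p03.symm
  · exact p13.symm
  · exact p23.symm
  · rfl
  · exact q4 3
  · exact (q4 0).symm
  · exact (q4 1).symm
  · exact (q4 2).symm
  · exact (q4 3).symm
  · rfl

end

end Pool.Agent.V11210.ZZ
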