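import Mathlib

/-!
# Near linear relations between `1, t, y, t², t y` for numbers `t`, `y` with measures
-/

set_option autoImplicit false

namespace Pool.Agent.V11210.ZZ.W

/-- the value of the linear form -/
noncomputable def L (t y : ℝ) (v : Fin 5 → ℤ) : ℝ :=
  v 0 + v 1 * t + v 2 * y + v 3 * (2 / 5 * t ^ 2) + v 4 * (t * y)

section

variable {t y : ℝ} (ht : 1 ≤ t) (ht2 : t ≤ 2) {c : ℝ} {k : ℕ} (hc : 0 < c) (hc1 : c ≤ 1)
  (M1 : ∀ a b d : ℤ, ∀ H : ℝ, 1 ≤ H → d ≠ 0 → |(b : ℝ)| ≤ H → |(d : ℝ)| ≤ H → c ≤ H ^ k * |(a : ℝ) + b * t + d * y|)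
  (M2 : ∀ A B C D : ℤ, ∀ H : ℝ, 1 ≤ H → ¬ (A = 0 ∧ B = 0 ∧ C = 0 ∧ D = 0) → |(A : ℝ)| ≤ H → |(B : ℝ)| ≤ H → |(C : ℝ)| ≤ H →
    |(D : ℝ)| ≤ H → c ≤ H ^ k * |(A : ℝ) * t ^ 3 + B * t ^ 2 + C * t + D|)

include hc hc1 M1 M2

lemma one (X : ℝ) (hX : 1 ≤ X) (v : Fin 5 → ℤ) (hv : ∀ i, |(v i : ℝ)| ≤ X) (hv0 : v ≠ 0)
    (hL : X ^ (3 * k + 2) * |L t y v| < c ^ 2 / (30 * 20 ^ k)) :
    (v 4 ≠ 0 ∧ 5 * v 0 * v 4 ^ 2 - 5 * v 1 * v 2 * v 4 + 2 * v 3 * v 2 ^ 2 ≠ 0) ∨ (v 4 = 0 ∧ v 2 ≠ 0 ∧ v 3 ≠ 0) := by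
  have hX0 : 0 < X := by linarith
  have hpow : (5 : ℝ) ^ k ≤ 20 ^ k := pow_le_pow_left₀ (by norm_num) (by norm_num) k
  have h5k : (0 : ℝ) < 5 ^ k := by positivity
  have h14 : (0 : ℝ) < 20 ^ k := by positivity
  have habs : 0 ≤ |L t y v| := abs_nonneg _
  rw [lt_div_iff₀ (by positivity)] at hL
  have hcc : c ^ 2 ≤ c := by nlinarith
  obtain ⟨N, hN⟩ : ∃ N, N = X ^ (3 * k + 2) * |L t y v| := ⟨_, rfl⟩
  have hN0 : 0 ≤ N := by rw [hN]; positivity
  rw [← hN] at hL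
  have hbase : 5 * 5 ^ k * N ≤ N * (30 * 20 ^ k) := by nlinarith
  by_cases hq : v 4 = 0
  · right
    refine ⟨hq, ?_⟩
    have hXk : (5 * X) ^ k * (5 * |L t y v|) ≤ 5 * 5 ^ k * N := by
      rw [mul_pow, hN]
      have h1 : X ^ k ≤ X ^ (3 * k + 2) := pow_le_pow_right₀ hX (by omega)
      have h2 : X ^ k * |L t y v| ≤ X ^ (3 * k + 2) * |L t y v| := mul_le_mul_of_nonneg_right h1 habs
      calc 5 ^ k * X ^ k * (5 * |L t y v|) = 5 * 5 ^ k * (X ^ k * |L t y v|) := by ring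
        _ ≤ _ := mul_le_mul_of_nonneg_left h2 (by positivity)
    have e5 : 5 * |L t y v| = |5 * L t y v| := by rw [abs_mul, abs_of_pos (by norm_num : (0 : ℝ) < 5)]
    have hb : v 2 ≠ 0 := by
      intro hb
      have h2 := M2 0 (2 * v 3) (5 * v 1) (5 * v 0) (5 * X) (by linarith) (by
        rintro ⟨-, h3, h1, h0⟩
        apply hv0
        funext i
        fin_cases i
        · show v 0 = 0
          omega
        · show v 1 = 0
          omega
        · exact hb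
        · show v 3 = 0
          omega
        · exact hq) (by simp; linarith) (by
        push_cast
        rw [abs_mul, abs_two]
        have := hv 3
        linarith) (by
        push_cast
        rw [abs_mul, abs_of_pos (by norm_num : (0 : ℝ) < 5)]
        have := hv 1
        linarith) (by
        push_cast
        rw [abs_mul, abs_of_pos (by norm_num : (0 : ℝ) < 5)]
        have := hv 0
        linarith)
      have e : ((0 : ℤ) : ℝ) * t ^ 3 + ((2 * v 3 : ℤ) : ℝ) * t ^ 2 + ((5 * v 1 : ℤ) : ℝ) * t + ((5 * v 0 : ℤ) : ℝ) = 5 * L t y v := by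
        unfold L
        rw [hb, hq]
        push_cast
        ring
      rw [e, ← e5] at h2
      linarith
    refine ⟨hb, fun hc3 => ?_⟩
    have h2 := M1 (5 * v 0) (5 * v 1) (5 * v 2) (5 * X) (by linarith) (by omega) (by
      push_cast
      rw [abs_mul, abs_of_pos (by norm_num : (0 : ℝ) < 5)]
      have := hv 1
      linarith) (by
      push_cast
      rw [abs_mul, abs_of_pos (by norm_num : (0 : ℝ) < 5)]
      have := hv 2
      linarith)
    have e : ((5 * v 0 : ℤ) : ℝ) + ((5 * v 1 : ℤ) : ℝ) * t + ((5 * v 2 : ℤ) : ℝ) * y = 5 * L t y v := by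
      unfold L
      rw [hc3, hq]
      push_cast
      ring
    rw [e, ← e5] at h2
    linarith
  · left
    refine ⟨hq, fun hD => ?_⟩
    have hDR : 5 * (v 0 : ℝ) * v 4 ^ 2 - 5 * v 1 * v 2 * v 4 + 2 * v 3 * v 2 ^ 2 = 0 := by exact_mod_cast hD
    have e : 5 * (v 4 : ℝ) ^ 2 * L t y v = ((v 4 : ℝ) * t + v 2) *
        (((5 * v 1 * v 4 - 2 * v 2 * v 3 : ℤ) : ℝ) + ((2 * v 3 * v 4 : ℤ) : ℝ) * t + ((5 * v 4 ^ 2 : ℤ) : ℝ) * y) := by
      unfold L
      push_cast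
      linear_combination hDR
    have hq2 : |(v 4 : ℝ)| ^ 2 ≤ X ^ 2 := pow_le_pow_left₀ (abs_nonneg _) (hv 4) 2
    have h1 := M1 (5 * v 1 * v 4 - 2 * v 2 * v 3) (2 * v 3 * v 4) (5 * v 4 ^ 2) (5 * X ^ 2) (by nlinarith)
      (by
        have : v 4 ^ 2 ≠ 0 := pow_ne_zero 2 hq
        omega) (by
      push_cast
      rw [abs_mul, abs_mul, abs_two]
      have h3 : |(v 3 : ℝ)| * |(v 4 : ℝ)| ≤ X * X := mul_le_mul (hv 3) (hv 4) (abs_nonneg _) hX0.le
      nlinarith [sq_nonneg X]) (by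
      push_cast
      rw [abs_mul, abs_pow, abs_of_pos (by norm_num : (0 : ℝ) < 5)]
      linarith)
    have h2 := M2 0 0 (v 4) (v 2) X hX (by
      rintro ⟨-, -, h3, -⟩
      exact hq h3) (by simp; linarith) (by simp; linarith) (hv 4) (hv 2)
    have e2 : |((0 : ℤ) : ℝ) * t ^ 3 + ((0 : ℤ) : ℝ) * t ^ 2 + (v 4 : ℝ) * t + (v 2 : ℝ)| = |(v 4 : ℝ) * t + v 2| := by
      congr 1
      push_cast
      ring
    rw [e2] at h2
    obtain ⟨R, hR⟩ : ∃ R, R = |((5 * v 1 * v 4 - 2 * v 2 * v 3 : ℤ) : ℝ) + ((2 * v 3 * v 4 : ℤ) : ℝ) * t + ((5 * v 4 ^ 2 : ℤ) : ℝ) * y| := ⟨_, rfl⟩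
    have e3 : 5 * |(v 4 : ℝ)| ^ 2 * |L t y v| = |(v 4 : ℝ) * t + v 2| * R := by
      rw [hR, ← abs_mul, ← e, abs_mul, abs_mul, abs_pow, abs_of_pos (by norm_num : (0 : ℝ) < 5)]
    rw [← hR] at h1
    have h3 : c * c ≤ (X ^ k * |(v 4 : ℝ) * t + v 2|) * ((5 * X ^ 2) ^ k * R) := mul_le_mul h2 h1 hc.le (by positivity)
    have h4 : (X ^ k * |(v 4 : ℝ) * t + v 2|) * ((5 * X ^ 2) ^ k * R) = 5 * 5 ^ k * (X ^ (3 * k) * (|(v 4 : ℝ)| ^ 2 * |L t y v|)) := by
      have : (X ^ k * |(v 4 : ℝ) * t + v 2|) * ((5 * X ^ 2) ^ k * R) = 5 ^ k * (X ^ k * (X ^ 2) ^ k) * (|(v 4 : ℝ) * t + v 2| * R) := by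
        rw [mul_pow]
        ring
      rw [this, ← e3, ← pow_mul, ← pow_add]
      have h5 : k + 2 * k = 3 * k := by ring
      rw [h5]
      ring
    have h5 : X ^ (3 * k) * (|(v 4 : ℝ)| ^ 2 * |L t y v|) ≤ N := by
      rw [hN, pow_add, mul_assoc]
      apply mul_le_mul_of_nonneg_left _ (by positivity)
      exact mul_le_mul_of_nonneg_right hq2 habs
    have h6 : 5 * 5 ^ k * (X ^ (3 * k) * (|(v 4 : ℝ)| ^ 2 * |L t y v|)) ≤ 5 * 5 ^ k * N := mul_le_mul_of_nonneg_left h5 (by positivity)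
    rw [h4] at h3
    nlinarith

include ht ht2

lemma two (X : ℝ) (hX : 1 ≤ X) (v w : Fin 5 → ℤ) (hv : ∀ i, |(v i : ℝ)| ≤ X) (hw : ∀ i, |(w i : ℝ)| ≤ X)
    (hL : X ^ (3 * k + 2) * |L t y v| < c ^ 2 / (30 * 20 ^ k))
    (hL' : X ^ (3 * k + 2) * |L t y w| < c ^ 2 / (30 * 20 ^ k)) :
    ∀ i j, v i * w j = v j * w i := by
  by_cases hv0 : v = 0
  · intro i j
    rw [hv0]
    simp
  have hone := one hc hc1 M1 M2 X hX v hv hv0 hL
  obtain ⟨A, hA⟩ : ∃ A, A = 2 * (v 4 * w 3 - w 4 * v 3) := ⟨_, rfl⟩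
  obtain ⟨B, hB⟩ : ∃ B, B = 5 * (v 4 * w 1 - w 4 * v 1) + 2 * (v 2 * w 3 - w 2 * v 3) := ⟨_, rfl⟩
  obtain ⟨C, hC⟩ : ∃ C, C = 5 * (v 4 * w 0 - w 4 * v 0) + 5 * (v 2 * w 1 - w 2 * v 1) := ⟨_, rfl⟩
  obtain ⟨D, hD⟩ : ∃ D, D = 5 * (v 2 * w 0 - w 2 * v 0) := ⟨_, rfl⟩
  have hX0 : 0 < X := by linarith
  have hprod : ∀ i j, |(v i : ℝ) * w j| ≤ X ^ 2 := by
    intro i j
    rw [abs_mul, sq]
    exact mul_le_mul (hv i) (hw j) (abs_nonneg _) hX0.le
  have key : A = 0 ∧ B = 0 ∧ C = 0 ∧ D = 0 := by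
    by_contra hne
    have hm := M2 A B C D (20 * X ^ 2) (by nlinarith) hne (by
      rw [hA]
      push_cast
      have h1 := abs_le.1 (hprod 4 3)
      have h2 := abs_le.1 (hprod 3 4)
      rw [abs_le]
      constructor <;> nlinarith [sq_nonneg X]) (by
      rw [hB]
      push_cast
      have h1 := abs_le.1 (hprod 4 1)
      have h2 := abs_le.1 (hprod 1 4)
      have h3 := abs_le.1 (hprod 2 3)
      have h4 := abs_le.1 (hprod 3 2)
      rw [abs_le]
      constructor <;> nlinarith [sq_nonneg X]) (by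
      rw [hC]
      push_cast
      have h1 := abs_le.1 (hprod 4 0)
      have h2 := abs_le.1 (hprod 0 4)
      have h3 := abs_le.1 (hprod 2 1)
      have h4 := abs_le.1 (hprod 1 2)
      rw [abs_le]
      constructor <;> nlinarith [sq_nonneg X]) (by
      rw [hD]
      push_cast
      have h1 := abs_le.1 (hprod 2 0)
      have h2 := abs_le.1 (hprod 0 2)
      rw [abs_le]
      constructor <;> nlinarith [sq_nonneg X])
    have e : (A : ℝ) * t ^ 3 + B * t ^ 2 + C * t + D = 5 * (((v 4 : ℝ) * t + v 2) * L t y w - ((w 4 : ℝ) * t + w 2) * L t y v) := by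
      rw [hA, hB, hC, hD]
      unfold L
      push_cast
      ring
    obtain ⟨η, hη⟩ : ∃ η, η = c ^ 2 / (30 * 20 ^ k) / X ^ (3 * k + 2) := ⟨_, rfl⟩
    have hXK : (0 : ℝ) < X ^ (3 * k + 2) := by positivity
    have l1 : |L t y v| < η := by rw [hη, lt_div_iff₀ hXK]; linarith
    have l2 : |L t y w| < η := by rw [hη, lt_div_iff₀ hXK]; linarith
    have hη0 : 0 < η := by rw [hη]; positivity
    have hal : ∀ u : Fin 5 → ℤ, (∀ i, |(u i : ℝ)| ≤ X) → |(u 4 : ℝ) * t + u 2| ≤ 3 * X := by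
      intro u hu
      have h1 := abs_le.1 (hu 4)
      have h2 := abs_le.1 (hu 2)
      rw [abs_le]
      constructor <;> nlinarith
    have l3 : |(A : ℝ) * t ^ 3 + B * t ^ 2 + C * t + D| < 30 * X * η := by
      rw [e, abs_mul, abs_of_pos (by norm_num : (0 : ℝ) < 5)]
      have h1 : |((w 4 : ℝ) * t + w 2) * L t y v| ≤ 3 * X * |L t y v| := by
        rw [abs_mul]
        exact mul_le_mul_of_nonneg_right (hal w hw) (abs_nonneg _)
      have h2 : |((v 4 : ℝ) * t + v 2) * L t y w| ≤ 3 * X * |L t y w| := by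
        rw [abs_mul]
        exact mul_le_mul_of_nonneg_right (hal v hv) (abs_nonneg _)
      have h3 := abs_sub (((v 4 : ℝ) * t + v 2) * L t y w) (((w 4 : ℝ) * t + w 2) * L t y v)
      have h4 : 3 * X * |L t y v| < 3 * X * η := mul_lt_mul_of_pos_left l1 (by positivity)
      have h5 : 3 * X * |L t y w| < 3 * X * η := mul_lt_mul_of_pos_left l2 (by positivity)
      linarith
    have l5 : c < (20 * X ^ 2) ^ k * (30 * X * η) := by
      refine hm.trans_lt ?_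
      apply mul_lt_mul_of_pos_left l3 (by positivity)
    have l6 : (20 * X ^ 2) ^ k * (30 * X * η) ≤ c ^ 2 := by
      have a1 : (20 * X ^ 2) ^ k * (30 * X * η) = 30 * 20 ^ k * η * X ^ (2 * k + 1) := by
        rw [mul_pow, ← pow_mul, pow_succ]
        ring
      have a2 : X ^ (2 * k + 1) ≤ X ^ (3 * k + 2) := pow_le_pow_right₀ hX (by omega)
      have a3 : 30 * 20 ^ k * η * X ^ (3 * k + 2) = c ^ 2 := by
        rw [hη]
        field_simp
      rw [a1, ← a3]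
      exact mul_le_mul_of_nonneg_left a2 (by positivity)
    nlinarith
  obtain ⟨a0, b0, c0, d0⟩ := key
  rw [hA] at a0
  rw [hB] at b0
  rw [hC] at c0
  rw [hD] at d0
  have fin : ∀ s : Fin 5, v s ≠ 0 → (∀ j, v s * w j = w s * v j) → ∀ i j, v i * w j = v j * w i := by
    intro s hs h i j
    have h1 : v s * (v i * w j - v j * w i) = 0 := by
      linear_combination v i * h j - v j * h i
    have h2 := (mul_eq_zero.1 h1).resolve_left hs
    linarith
  have E1 : v 4 * w 3 = w 4 * v 3 := by omega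
  have E0 : v 2 * w 0 = w 2 * v 0 := by omega
  rcases hone with ⟨hq, hDv⟩ | ⟨hq, hb, hc3⟩
  · have m1 : v 4 * w 2 = w 4 * v 2 := by
      have h1 : (v 4 * w 2 - w 4 * v 2) * (5 * v 0 * v 4 ^ 2 - 5 * v 1 * v 2 * v 4 + 2 * v 3 * v 2 ^ 2) = 0 := by
        linear_combination (v 2 ^ 3) * a0 - (v 2 ^ 2 * v 4) * b0 + (v 2 * v 4 ^ 2) * c0 - (v 4 ^ 3) * d0
      have h2 := (mul_eq_zero.1 h1).resolve_right hDv
      linarith
    have m2 : v 4 * w 1 = w 4 * v 1 := by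
      have h1 : v 4 * (5 * (v 4 * w 1 - w 4 * v 1)) = 0 := by
        linear_combination v 4 * b0 - 2 * v 2 * E1 + 2 * v 3 * m1
      have h2 := (mul_eq_zero.1 h1).resolve_left hq
      linarith
    have m3 : v 4 * w 0 = w 4 * v 0 := by
      have h1 : v 4 * (5 * (v 4 * w 0 - w 4 * v 0)) = 0 := by
        linear_combination v 4 * c0 - 5 * v 2 * m2 + 5 * v 1 * m1
      have h2 := (mul_eq_zero.1 h1).resolve_left hq
      linarith
    refine fin 4 hq fun j => ?_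
    fin_cases j
    · exact m3
    · exact m2
    · exact m1
    · exact E1
    · exact mul_comm _ _
  · have hq' : w 4 = 0 := by
      have h1 : w 4 * v 3 = 0 := by rw [← E1, hq, zero_mul]
      exact (mul_eq_zero.1 h1).resolve_right hc3
    rw [hq, hq'] at b0 c0
    refine fin 2 hb fun j => ?_
    fin_cases j
    · exact E0
    · show v 2 * w 1 = w 2 * v 1
      linarith
    · exact mul_comm _ _
    · show v 2 * w 3 = w 2 * v 3
      linarith
    · show v 2 * w 4 = w 2 * v 4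
      rw [hq, hq']
      simp

end

end Pool.Agent.V11210.ZZ.W
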