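import Pool.Agent.H103R2.LM.M
import Pool.Agent.H337R2.LZ.Z2
import Pool.Agent.TH456.TM.Inst

/-!
# Measures for `ζ(2)` and `ζ(3)`
-/

set_option autoImplicit false

namespace Pool.Agent.V11210.ZZ

open Polynomial

/-- `ζ(s) = ∑_{k ≥ 1} k^(-s)`. -/
noncomputable def zeta (s : ℕ) : ℝ := ∑' k : ℕ, 1 / ((k : ℝ) + 1) ^ s

lemma zeta_two : zeta 2 = Real.pi ^ 2 / 6 := Pool.Agent.LZ.Z2_value

lemma zeta_four : zeta 4 = 2 / 5 * zeta 2 ^ 2 := by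
  have h1 := (hasSum_nat_add_iff' 1).2 hasSum_zeta_four
  rw [Finset.sum_range_one] at h1
  simp only [Nat.cast_zero, ne_eq, OfNat.ofNat_ne_zero, not_false_eq_true, zero_pow, div_zero,
    sub_zero] at h1
  have h2 : HasSum (fun n : ℕ => 1 / ((n : ℝ) + 1) ^ 4) (Real.pi ^ 4 / 90) := by
    refine h1.congr_fun fun n => ?_
    push_cast
    rfl
  rw [zeta_two]
  unfold zeta
  rw [h2.tsum_eq]
  ring

lemma one_le_zeta_two : 1 ≤ zeta 2 := by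
  rw [zeta_two]
  have := Real.pi_gt_three
  nlinarith

lemma zeta_two_le : zeta 2 ≤ 2 := by
  rw [zeta_two]
  have h1 := Real.pi_lt_d2
  have h2 := Real.pi_pos
  nlinarith

lemma rpow_le_npow {H κ : ℝ} (hH : 1 ≤ H) {k : ℕ} (hk : κ ≤ k) : H ^ κ ≤ H ^ k := by
  rw [← Real.rpow_natCast]
  exact Real.rpow_le_rpow_of_exponent_le hH hk

theorem meas1 : ∃ c : ℝ, 0 < c ∧ ∃ k₀ : ℕ, ∀ k : ℕ, k₀ ≤ k → ∀ a b d : ℤ, ∀ H : ℝ, 1 ≤ H → d ≠ 0 →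
    |(b : ℝ)| ≤ H → |(d : ℝ)| ≤ H → c ≤ H ^ k * |(a : ℝ) + b * zeta 2 + d * zeta 3| := by
  obtain ⟨c, hc, κ, hκ, h⟩ := Pool.Agent.LM.measure_d
  refine ⟨c, hc, ⌈κ⌉₊, fun k hk a b d H hH hd hb hdH => ?_⟩
  have h1 : c * H ^ (-κ) ≤ |(a : ℝ) + b * zeta 2 + d * zeta 3| := h a b d H hH hd hb hdH
  have hH0 : 0 < H := by linarith
  have hκk : κ ≤ k := (Nat.le_ceil κ).trans (by exact_mod_cast hk)
  have h2 : H ^ κ * (c * H ^ (-κ)) = c := by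
    rw [Real.rpow_neg hH0.le]
    have : H ^ κ ≠ 0 := by positivity
    field_simp
  calc c = H ^ κ * (c * H ^ (-κ)) := h2.symm
    _ ≤ H ^ k * |(a : ℝ) + b * zeta 2 + d * zeta 3| := by
        apply mul_le_mul (rpow_le_npow hH hκk) h1 (by positivity) (by positivity)

theorem meas2 : ∃ c : ℝ, 0 < c ∧ ∃ k₀ : ℕ, ∀ k : ℕ, k₀ ≤ k → ∀ A B C : ℤ, ∀ H : ℝ, 1 ≤ H → ¬ (A = 0 ∧ B = 0 ∧ C = 0) →
    |(A : ℝ)| ≤ H → |(B : ℝ)| ≤ H → |(C : ℝ)| ≤ H → c ≤ H ^ k * |(A : ℝ) * zeta 2 ^ 2 + B * zeta 2 + C| := by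
  obtain ⟨κ, c, hκ, hc, h⟩ := Pool.Agent.TH456.TM.measT_pi 4
  obtain ⟨D, hD⟩ : ∃ D : ℝ, D = (36 : ℝ) ^ κ := ⟨_, rfl⟩
  have hD0 : 0 < D := by rw [hD]; positivity
  refine ⟨c / (36 * D), by positivity, ⌈κ⌉₊, fun k hk A B C' H hH hne hA hB hC => ?_⟩
  have hH0 : 0 < H := by linarith
  have hκk : κ ≤ k := (Nat.le_ceil κ).trans (by exact_mod_cast hk)
  obtain ⟨P, hP⟩ : ∃ P : ℤ[X], P = C A * X ^ 4 + C (6 * B) * X ^ 2 + C (36 * C') := ⟨_, rfl⟩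
  have hcoef : ∀ j, P.coeff j = if j = 4 then A else if j = 2 then 6 * B else if j = 0 then 36 * C' else 0 := by
    intro j
    rw [hP]
    simp only [coeff_add, coeff_C_mul, coeff_X_pow, coeff_C]
    split_ifs <;> first | omega | simp
  have hP0 : P ≠ 0 := by
    intro h0
    apply hne
    have e4 := hcoef 4
    have e2 := hcoef 2
    have e0 := hcoef 0
    rw [h0] at e4 e2 e0
    simp at e4 e2 e0
    exact ⟨e4.symm, by omega, by omega⟩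
  have hdeg : P.natDegree ≤ 4 := by
    rw [natDegree_le_iff_coeff_eq_zero]
    intro j hj
    rw [hcoef]
    split_ifs <;> first | omega | rfl
  have hbd : ∀ j, |(P.coeff j : ℝ)| ≤ 36 * H := by
    intro j
    rw [hcoef]
    split_ifs
    · linarith
    · push_cast
      rw [abs_mul, abs_of_pos (by norm_num : (0 : ℝ) < 6)]
      linarith
    · push_cast
      rw [abs_mul, abs_of_pos (by norm_num : (0 : ℝ) < 36)]
      linarith
    · simp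
      linarith
  have h1 := h P hP0 hdeg (36 * H) (by linarith) hbd
  have h2 : ‖aeval (Real.pi : ℂ) P‖ = 36 * |(A : ℝ) * zeta 2 ^ 2 + B * zeta 2 + C'| := by
    have e1 : aeval (Real.pi : ℂ) P = (((36 * ((A : ℝ) * zeta 2 ^ 2 + B * zeta 2 + C') : ℝ)) : ℂ) := by
      rw [hP, zeta_two]
      simp only [map_add, map_mul, aeval_C, map_pow, aeval_X]
      push_cast
      simp only [algebraMap_int_eq, eq_intCast]
      push_cast
      ring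
    rw [e1, Complex.norm_real, Real.norm_eq_abs, abs_mul, abs_of_pos (by norm_num : (0 : ℝ) < 36)]
  rw [h2, Real.mul_rpow (by norm_num) hH0.le, ← hD] at h1
  rw [div_le_iff₀ (by positivity)]
  have h3 := rpow_le_npow hH hκk
  have h4 := abs_nonneg ((A : ℝ) * zeta 2 ^ 2 + B * zeta 2 + C')
  calc c ≤ D * H ^ κ * (36 * |(A : ℝ) * zeta 2 ^ 2 + B * zeta 2 + C'|) := h1
    _ ≤ D * H ^ k * (36 * |(A : ℝ) * zeta 2 ^ 2 + B * zeta 2 + C'|) := by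
        apply mul_le_mul_of_nonneg_right _ (by positivity)
        exact mul_le_mul_of_nonneg_left h3 hD0.le
    _ = _ := by ring

theorem meas : ∃ c : ℝ, 0 < c ∧ c ≤ 1 ∧ ∃ k : ℕ,
    (∀ a b d : ℤ, ∀ H : ℝ, 1 ≤ H → d ≠ 0 → |(b : ℝ)| ≤ H → |(d : ℝ)| ≤ H →
      c ≤ H ^ k * |(a : ℝ) + b * zeta 2 + d * zeta 3|) ∧
    (∀ A B C : ℤ, ∀ H : ℝ, 1 ≤ H → ¬ (A = 0 ∧ B = 0 ∧ C = 0) → |(A : ℝ)| ≤ H → |(B : ℝ)| ≤ H → |(C : ℝ)| ≤ H →
      c ≤ H ^ k * |(A : ℝ) * zeta 2 ^ 2 + B * zeta 2 + C|) := by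
  obtain ⟨c₁, h₁, k₁, m₁⟩ := meas1
  obtain ⟨c₂, h₂, k₂, m₂⟩ := meas2
  refine ⟨min 1 (min c₁ c₂), by positivity, min_le_left _ _, k₁ + k₂, ?_, ?_⟩
  · intro a b d H hH hd hb hdH
    exact ((min_le_right _ _).trans (min_le_left _ _)).trans (m₁ _ (by omega) a b d H hH hd hb hdH)
  · intro A B C H hH hne hA hB hC
    exact ((min_le_right _ _).trans (min_le_right _ _)).trans (m₂ _ (by omega) A B C H hH hne hA hB hC)

end Pool.Agent.V11210.ZZ
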