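import Pool.Agent.V11210.ZZ.Three
import Pool.Agent.V11210.ZZ.Meas

/-!
# Near linear relations between `ζ(2)ζ(3), ζ(2), ζ(3), ζ(4)` and arbitrary numbers
-/

set_option autoImplicit false

namespace Pool.Agent.V11210.ZZ

open Finset

/-- the vectors of the coefficients -/
abbrev Vec (r : ℕ) : Type := (Fin 4 → ℤ) × (Fin r → ℤ)

/-- `q ζ(2) ζ(3) - a ζ(2) - b ζ(3) - c ζ(4) - e_1 z_1 - … - e_r z_r` for `v = ((q, a, b, c), e)` -/
noncomputable def value {r : ℕ} (z : Fin r → ℝ) (v : Vec r) : ℝ :=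
  v.1 0 * (zeta 2 * zeta 3) - v.1 1 * zeta 2 - v.1 2 * zeta 3 - v.1 3 * zeta 4 - ∑ i, v.2 i * z i

/-- the near relations of norm at most `X` -/
def near {r : ℕ} (c : ℝ) (κ : ℕ) (z : Fin r → ℝ) (X : ℝ) : Set (Vec r) :=
  {v | (∀ i, |(v.1 i : ℝ)| ≤ X) ∧ (∀ i, |(v.2 i : ℝ)| ≤ X) ∧ |value z v| < c / X ^ κ}

/-- the vector without the last coordinate -/
def res {r : ℕ} (v : Vec (r + 1)) : Vec r := (v.1, fun i => v.2 i.castSucc)

lemma value_res {r : ℕ} (z : Fin (r + 1) → ℝ) (v : Vec (r + 1)) (h : v.2 (Fin.last r) = 0) :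
    value (fun i => z i.castSucc) (res v) = value z v := by
  unfold value res
  rw [Fin.sum_univ_castSucc (fun i => (v.2 i : ℝ) * z i), h]
  push_cast
  ring

lemma lift {r n : ℕ} (l : Fin n → ℤ) (x : Fin n → Vec (r + 1)) (h0 : ∀ j, (x j).2 (Fin.last r) = 0)
    (h : ∑ j, l j • res (x j) = 0) : ∑ j, l j • x j = 0 := by
  have h1 : ∀ i, ∑ j, l j * (x j).1 i = 0 := by
    intro i
    have := congrFun (congrArg Prod.fst h) i
    simpa [Prod.fst_sum, Finset.sum_apply, res] using this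
  have h2 : ∀ i : Fin r, ∑ j, l j * (x j).2 i.castSucc = 0 := by
    intro i
    have := congrFun (congrArg Prod.snd h) i
    simpa [Prod.snd_sum, Finset.sum_apply, res] using this
  refine Prod.ext ?_ ?_
  · funext i
    have := h1 i
    simpa [Prod.fst_sum, Finset.sum_apply] using this
  · funext i
    have : ∑ j, l j * (x j).2 i = 0 := by
      refine Fin.lastCases ?_ (fun i => h2 i) i
      exact Finset.sum_eq_zero fun j _ => by rw [h0, mul_zero]
    simpa [Prod.snd_sum, Finset.sum_apply] using this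

lemma value_comb {r : ℕ} (z : Fin r → ℝ) (α β : ℤ) (u x : Vec r) :
    value z (α • u - β • x) = α * value z u - β * value z x := by
  unfold value
  simp only [Prod.fst_sub, Prod.smul_fst, Prod.snd_sub, Prod.smul_snd, Pi.sub_apply, Pi.smul_apply, smul_eq_mul, Int.cast_sub,
    Int.cast_mul]
  have h : ∑ i, ((α : ℝ) * u.2 i - β * x.2 i) * z i = α * ∑ i, (u.2 i : ℝ) * z i - β * ∑ i, (x.2 i : ℝ) * z i := by
    rw [mul_sum, mul_sum, ← sum_sub_distrib]
    exact sum_congr rfl fun i _ => by ring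
  rw [h]
  ring

lemma near_mono {r : ℕ} {c c' : ℝ} {κ κ' : ℕ} (hc : 0 ≤ c') (hcc : c' ≤ c) (hκ : κ ≤ κ') {z : Fin r → ℝ} {X : ℝ} (hX : 1 ≤ X) :
    near c' κ' z X ⊆ near c κ z X := by
  rintro v ⟨h1, h2, h3⟩
  refine ⟨h1, h2, h3.trans_le ?_⟩
  have hX0 : 0 < X := by linarith
  exact div_le_div₀ (hc.trans hcc) hcc (by positivity) (pow_le_pow_right₀ hX hκ)

/-- the case without further numbers -/
theorem base : ∃ c : ℝ, 0 < c ∧ ∃ κ : ℕ, ∀ z : Fin 0 → ℝ, ∀ X : ℝ, 1 ≤ X → ∀ v ∈ near c κ z X,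
    (v ≠ 0 → v.1 2 ≠ 0 ∧ 5 * v.1 0 * v.1 1 + 2 * v.1 2 * v.1 3 ≠ 0) ∧
    ∀ w ∈ near c κ z X, ∀ i j, v.1 i * w.1 j = v.1 j * w.1 i := by
  obtain ⟨c, hc, hc1, k, M1, M2⟩ := meas
  refine ⟨c ^ 2 / (30 * 14 ^ k), by positivity, 2 * k + 1, fun z X hX v hv => ?_⟩
  have hX0 : 0 < X := by linarith
  obtain ⟨ex, hex⟩ : ∃ ex : Vec 0 → (Fin 5 → ℤ), ex = fun v => ![v.1 0, v.1 1, v.1 2, v.1 3, 0] := ⟨_, rfl⟩
  have hval : ∀ v : Vec 0, L (zeta 2) (zeta 3) 0 (ex v) = value z v := by
    intro v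
    rw [hex]
    unfold L value
    rw [zeta_four]
    simp
  have hb : ∀ v ∈ near (c ^ 2 / (30 * 14 ^ k)) (2 * k + 1) z X, ∀ i, |(ex v i : ℝ)| ≤ X := by
    intro v hv i
    rw [hex]
    fin_cases i
    · exact hv.1 0
    · exact hv.1 1
    · exact hv.1 2
    · exact hv.1 3
    · simp
      linarith
  have hs : ∀ v ∈ near (c ^ 2 / (30 * 14 ^ k)) (2 * k + 1) z X, X ^ (2 * k + 1) * |L (zeta 2) (zeta 3) 0 (ex v)| < c ^ 2 / (30 * 14 ^ k) := by
    intro v hv
    rw [hval, mul_comm, ← lt_div_iff₀ (by positivity)]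
    exact hv.2.2
  have h4 : ∀ v, ex v 4 = 0 := fun v => by rw [hex]; rfl
  have hi : ∀ v : Vec 0, ∀ i : Fin 4, ex v i.castSucc = v.1 i := by
    intro v i
    rw [hex]
    fin_cases i <;> rfl
  constructor
  · intro hv0
    have := one one_le_zeta_two hc hc1 M1 M2 X hX (ex v) (hb v hv) (h4 v) (by
      intro h
      apply hv0
      refine Prod.ext ?_ (funext fun i => i.elim0)
      funext i
      rw [← hi, h]
      rfl) (hs v hv)
    rw [hex] at this
    exact this
  · intro w hw i j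
    have := two one_le_zeta_two zeta_two_le hc hc1 M1 M2 X hX (ex v) (ex w) (hb v hv) (hb w hw) (h4 v) (h4 w) (hs v hv) (hs w hw)
      i.castSucc j.castSucc
    rwa [hi, hi, hi, hi] at this

theorem gen (r : ℕ) : ∃ c : ℝ, 0 < c ∧ ∃ κ : ℕ, ∀ z : Fin r → ℝ, ∀ X : ℝ, 1 ≤ X → ∀ V : Fin (r + 2) → Vec r,
    (∀ j, V j ∈ near c κ z X) → ∃ l : Fin (r + 2) → ℤ, l ≠ 0 ∧ ∑ j, l j • V j = 0 := by
  induction r with
  | zero =>
    obtain ⟨c, hc, κ, h⟩ := base
    refine ⟨c, hc, κ, fun z X hX V hV => ?_⟩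
    obtain ⟨-, hp⟩ := h z X hX (V 0) (hV 0)
    have hp' := hp (V 1) (hV 1)
    by_cases h0 : (V 0).1 = 0
    · refine ⟨![1, 0], fun h => ?_, ?_⟩
      · have := congrFun h 0
        simp at this
      · rw [Fin.sum_univ_two]
        have : V 0 = 0 := Prod.ext h0 (funext fun i => i.elim0)
        simp [this]
    · obtain ⟨i₀, hi₀⟩ := Function.ne_iff.1 h0
      have hi₀' : (V 0).1 i₀ ≠ 0 := hi₀
      refine ⟨![(V 1).1 i₀, -((V 0).1 i₀)], fun h => ?_, ?_⟩
      · have := congrFun h 1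
        simp at this
        exact hi₀' this
      · rw [Fin.sum_univ_two]
        refine Prod.ext ?_ (funext fun i => i.elim0)
        funext j
        have := hp' i₀ j
        simp only [Matrix.cons_val_zero, Matrix.cons_val_one, Prod.fst_add, Prod.smul_fst, Pi.add_apply, Pi.smul_apply, smul_eq_mul,
          Prod.fst_zero, Pi.zero_apply]
        linarith
  | succ r ih =>
    obtain ⟨c, hc, κ, h⟩ := ih
    refine ⟨c / 2 ^ (κ + 1), by positivity, 2 * κ + 1, fun z X hX V hV => ?_⟩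
    have hX0 : 0 < X := by linarith
    have h2k : (1 : ℝ) ≤ 2 ^ (κ + 1) := one_le_pow₀ (by norm_num)
    have hcle : c / 2 ^ (κ + 1) ≤ c := div_le_self hc.le h2k
    by_cases hall : ∀ j, (V j).2 (Fin.last r) = 0
    · obtain ⟨l, hl, hl0⟩ := h (fun i => z i.castSucc) X hX (fun j => res (V j.castSucc)) (fun j => by
        obtain ⟨h1, h2, h3⟩ := near_mono (by positivity) hcle (by omega : κ ≤ 2 * κ + 1) hX (hV j.castSucc)
        refine ⟨h1, fun i => h2 i.castSucc, ?_⟩
        rw [value_res z _ (hall _)]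
        exact h3)
      have h5 := lift l (fun j => V j.castSucc) (fun j => hall _) hl0
      refine ⟨Fin.snoc (α := fun _ => ℤ) l 0, fun h6 => hl (funext fun j => ?_), ?_⟩
      · have := congrFun h6 j.castSucc
        rw [Fin.snoc_castSucc (α := fun _ => ℤ)] at this
        exact this
      · rw [Fin.sum_univ_castSucc]
        simp only [Fin.snoc_castSucc, Fin.snoc_last, zero_smul, add_zero]
        exact h5
    · push Not at hall
      obtain ⟨j₀, hj₀⟩ := hall
      obtain ⟨u, hu⟩ : ∃ u, u = V j₀ := ⟨_, rfl⟩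
      rw [← hu] at hj₀
      obtain ⟨comb, hcomb⟩ : ∃ comb : Vec (r + 1) → Vec (r + 1), comb = fun x => x.2 (Fin.last r) • u - u.2 (Fin.last r) • x := ⟨_, rfl⟩
      have hc0 : ∀ x, (comb x).2 (Fin.last r) = 0 := by
        intro x
        rw [hcomb]
        simp only [Prod.snd_sub, Prod.smul_snd, Pi.sub_apply, Pi.smul_apply, smul_eq_mul]
        ring
      have hun := hV j₀
      rw [← hu] at hun
      have hbound : ∀ a b p q : ℤ, |(a : ℝ)| ≤ X → |(b : ℝ)| ≤ X → |(p : ℝ)| ≤ X → |(q : ℝ)| ≤ X →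
          |((a * p - b * q : ℤ) : ℝ)| ≤ 2 * X ^ 2 := by
        intro a b p q ha hb hp hq
        push_cast
        have h1 : |(a : ℝ) * p| ≤ X ^ 2 := by
          rw [abs_mul, sq]
          exact mul_le_mul ha hp (abs_nonneg _) hX0.le
        have h2 : |(b : ℝ) * q| ≤ X ^ 2 := by
          rw [abs_mul, sq]
          exact mul_le_mul hb hq (abs_nonneg _) hX0.le
        have h3 := abs_sub ((a : ℝ) * p) ((b : ℝ) * q)
        linarith
      have hnear : ∀ x ∈ near (c / 2 ^ (κ + 1)) (2 * κ + 1) z X, res (comb x) ∈ near c κ (fun i => z i.castSucc) (2 * X ^ 2) := by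
        intro x hx
        refine ⟨fun i => ?_, fun i => ?_, ?_⟩
        · rw [hcomb]
          show |((x.2 (Fin.last r) * u.1 i - u.2 (Fin.last r) * x.1 i : ℤ) : ℝ)| ≤ _
          exact hbound _ _ _ _ (hx.2.1 _) (hun.2.1 _) (hun.1 _) (hx.1 _)
        · rw [hcomb]
          show |((x.2 (Fin.last r) * u.2 i.castSucc - u.2 (Fin.last r) * x.2 i.castSucc : ℤ) : ℝ)| ≤ _
          exact hbound _ _ _ _ (hx.2.1 _) (hun.2.1 _) (hun.2.1 _) (hx.2.1 _)
        · rw [value_res z _ (hc0 x), hcomb, value_comb]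
          obtain ⟨η, hη⟩ : ∃ η, η = c / 2 ^ (κ + 1) / X ^ (2 * κ + 1) := ⟨_, rfl⟩
          have e1 := hx.2.2
          have e2 := hun.2.2
          rw [← hη] at e1 e2
          have e3 : |((x.2 (Fin.last r) : ℤ) : ℝ) * value z u| ≤ X * |value z u| := by
            rw [abs_mul]
            exact mul_le_mul_of_nonneg_right (hx.2.1 _) (abs_nonneg _)
          have e4 : |((u.2 (Fin.last r) : ℤ) : ℝ) * value z x| ≤ X * |value z x| := by
            rw [abs_mul]
            exact mul_le_mul_of_nonneg_right (hun.2.1 _) (abs_nonneg _)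
          have e5 := abs_sub (((x.2 (Fin.last r) : ℤ) : ℝ) * value z u) (((u.2 (Fin.last r) : ℤ) : ℝ) * value z x)
          have e6 : X * |value z u| < X * η := mul_lt_mul_of_pos_left e2 hX0
          have e7 : X * |value z x| < X * η := mul_lt_mul_of_pos_left e1 hX0
          have e8 : 2 * (X * η) = c / (2 * X ^ 2) ^ κ := by
            rw [hη, mul_pow, ← pow_mul]
            have a1 : X ^ (2 * κ + 1) = X ^ (2 * κ) * X := pow_succ _ _
            have a2 : (2 : ℝ) ^ (κ + 1) = 2 ^ κ * 2 := pow_succ _ _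
            rw [a1, a2]
            field_simp
          rw [← e8]
          linarith
      obtain ⟨l, hl, hl0⟩ := h (fun i => z i.castSucc) (2 * X ^ 2) (by nlinarith) (fun j => res (comb (V (j₀.succAbove j)))) (fun j =>
        hnear _ (hV _))
      have h5 := lift l (fun j => comb (V (j₀.succAbove j))) (fun j => hc0 _) hl0
      refine ⟨Fin.insertNth (α := fun _ => ℤ) j₀ (∑ j, l j * (V (j₀.succAbove j)).2 (Fin.last r)) (fun j => -(u.2 (Fin.last r) * l j)),
        fun h6 => hl (funext fun j => ?_), ?_⟩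
      · have := congrFun h6 (j₀.succAbove j)
        rw [Fin.insertNth_apply_succAbove (α := fun _ => ℤ)] at this
        have h7 : u.2 (Fin.last r) * l j = 0 := by
          have h8 : -(u.2 (Fin.last r) * l j) = 0 := this
          omega
        exact (mul_eq_zero.1 h7).resolve_left hj₀
      · rw [Fin.sum_univ_succAbove _ j₀]
        simp only [Fin.insertNth_apply_same, Fin.insertNth_apply_succAbove]
        rw [← hu]
        rw [hcomb] at h5
        rw [← h5, sum_smul, ← sum_add_distrib]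
        refine sum_congr rfl fun j _ => ?_
        rw [smul_sub, smul_smul, smul_smul, neg_smul, mul_comm (u.2 (Fin.last r)) (l j), sub_eq_add_neg]

end Pool.Agent.V11210.ZZ
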