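import Pool.Agent.V11210.ZZ.Meas

/-!
# The measure for polynomials of degree three in `ζ(2)`
-/

set_option autoImplicit false

namespace Pool.Agent.V11210.ZZ

open Polynomial

theorem meas3 : ∃ c : ℝ, 0 < c ∧ ∃ k₀ : ℕ, ∀ k : ℕ, k₀ ≤ k → ∀ A B C D : ℤ, ∀ H : ℝ, 1 ≤ H → ¬ (A = 0 ∧ B = 0 ∧ C = 0 ∧ D = 0) →
    |(A : ℝ)| ≤ H → |(B : ℝ)| ≤ H → |(C : ℝ)| ≤ H → |(D : ℝ)| ≤ H →
    c ≤ H ^ k * |(A : ℝ) * zeta 2 ^ 3 + B * zeta 2 ^ 2 + C * zeta 2 + D| := by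
  obtain ⟨κ, c, hκ, hc, h⟩ := Pool.Agent.TH456.TM.measT_pi 6
  obtain ⟨E, hE⟩ : ∃ E : ℝ, E = (216 : ℝ) ^ κ := ⟨_, rfl⟩
  have hE0 : 0 < E := by rw [hE]; positivity
  refine ⟨c / (216 * E), by positivity, ⌈κ⌉₊, fun k hk A B C' D H hH hne hA hB hC hD => ?_⟩
  have hH0 : 0 < H := by linarith
  have hκk : κ ≤ k := (Nat.le_ceil κ).trans (by exact_mod_cast hk)
  obtain ⟨P, hP⟩ : ∃ P : ℤ[X], P = C A * X ^ 6 + C (6 * B) * X ^ 4 + C (36 * C') * X ^ 2 + C (216 * D) := ⟨_, rfl⟩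
  have hcoef : ∀ j, P.coeff j = if j = 6 then A else if j = 4 then 6 * B else if j = 2 then 36 * C' else if j = 0 then 216 * D else 0 := by
    intro j
    rw [hP]
    simp only [coeff_add, coeff_C_mul, coeff_X_pow, coeff_C]
    split_ifs <;> first | omega | simp
  have hP0 : P ≠ 0 := by
    intro h0
    apply hne
    have e6 := hcoef 6
    have e4 := hcoef 4
    have e2 := hcoef 2
    have e0 := hcoef 0
    rw [h0] at e6 e4 e2 e0
    simp at e6 e4 e2 e0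
    exact ⟨e6.symm, by omega, by omega, by omega⟩
  have hdeg : P.natDegree ≤ 6 := by
    rw [natDegree_le_iff_coeff_eq_zero]
    intro j hj
    rw [hcoef]
    split_ifs <;> first | omega | rfl
  have hbd : ∀ j, |(P.coeff j : ℝ)| ≤ 216 * H := by
    intro j
    rw [hcoef]
    split_ifs
    · linarith
    · push_cast
      rw [abs_mul, abs_of_pos (by norm_num : (0 : ℝ) < 6)]
      linarith
    · push_cast
      rw [abs_mul, abs_of_pos (by norm_num : (0 : ℝ) < 36)]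
      linarith
    · push_cast
      rw [abs_mul, abs_of_pos (by norm_num : (0 : ℝ) < 216)]
      linarith
    · simp
      linarith
  have h1 := h P hP0 hdeg (216 * H) (by linarith) hbd
  have h2 : ‖aeval (Real.pi : ℂ) P‖ = 216 * |(A : ℝ) * zeta 2 ^ 3 + B * zeta 2 ^ 2 + C' * zeta 2 + D| := by
    have e1 : aeval (Real.pi : ℂ) P = (((216 * ((A : ℝ) * zeta 2 ^ 3 + B * zeta 2 ^ 2 + C' * zeta 2 + D) : ℝ)) : ℂ) := by
      rw [hP, zeta_two]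
      simp only [map_add, map_mul, aeval_C, map_pow, aeval_X]
      push_cast
      simp only [algebraMap_int_eq, eq_intCast]
      push_cast
      ring
    rw [e1, Complex.norm_real, Real.norm_eq_abs, abs_mul, abs_of_pos (by norm_num : (0 : ℝ) < 216)]
  rw [h2, Real.mul_rpow (by norm_num) hH0.le, ← hE] at h1
  rw [div_le_iff₀ (by positivity)]
  have h3 := rpow_le_npow hH hκk
  have h4 := abs_nonneg ((A : ℝ) * zeta 2 ^ 3 + B * zeta 2 ^ 2 + C' * zeta 2 + D)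
  calc c ≤ E * H ^ κ * (216 * |(A : ℝ) * zeta 2 ^ 3 + B * zeta 2 ^ 2 + C' * zeta 2 + D|) := h1
    _ ≤ E * H ^ k * (216 * |(A : ℝ) * zeta 2 ^ 3 + B * zeta 2 ^ 2 + C' * zeta 2 + D|) := by
        apply mul_le_mul_of_nonneg_right _ (by positivity)
        exact mul_le_mul_of_nonneg_left h3 hE0.le
    _ = _ := by ring

theorem meas' : ∃ c : ℝ, 0 < c ∧ c ≤ 1 ∧ ∃ k : ℕ,
    (∀ a b d : ℤ, ∀ H : ℝ, 1 ≤ H → d ≠ 0 → |(b : ℝ)| ≤ H → |(d : ℝ)| ≤ H →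
      c ≤ H ^ k * |(a : ℝ) + b * zeta 2 + d * zeta 3|) ∧
    (∀ A B C D : ℤ, ∀ H : ℝ, 1 ≤ H → ¬ (A = 0 ∧ B = 0 ∧ C = 0 ∧ D = 0) → |(A : ℝ)| ≤ H → |(B : ℝ)| ≤ H → |(C : ℝ)| ≤ H →
      |(D : ℝ)| ≤ H → c ≤ H ^ k * |(A : ℝ) * zeta 2 ^ 3 + B * zeta 2 ^ 2 + C * zeta 2 + D|) := by
  obtain ⟨c₁, h₁, k₁, m₁⟩ := meas1
  obtain ⟨c₂, h₂, k₂, m₂⟩ := meas3
  refine ⟨min 1 (min c₁ c₂), by positivity, min_le_left _ _, k₁ + k₂, ?_, ?_⟩
  · intro a b d H hH hd hb hdH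
    exact ((min_le_right _ _).trans (min_le_left _ _)).trans (m₁ _ (by omega) a b d H hH hd hb hdH)
  · intro A B C D H hH hne hA hB hC hD
    exact ((min_le_right _ _).trans (min_le_right _ _)).trans (m₂ _ (by omega) A B C D H hH hne hA hB hC hD)

end Pool.Agent.V11210.ZZ
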