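import Pool.Agent.V11210.ZZ.Core

/-!
# Three near relations are linearly dependent
-/

set_option autoImplicit false

namespace Pool.Agent.V11210.ZZ

lemma L_comb (t y z : ℝ) (α β : ℤ) (v w : Fin 5 → ℤ) :
    L t y z (fun i => α * v i - β * w i) = α * L t y z v - β * L t y z w := by
  unfold L
  push_cast
  ring

lemma dep_of_prop {v w : Fin 5 → ℤ} (h : ∀ i j, v i * w j = v j * w i) :
    ∃ α β : ℤ, (α ≠ 0 ∨ β ≠ 0) ∧ ∀ i, α * v i + β * w i = 0 := by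
  by_cases hv : v = 0
  · exact ⟨1, 0, Or.inl one_ne_zero, fun i => by rw [hv]; simp⟩
  · obtain ⟨i₀, hi₀⟩ := Function.ne_iff.1 hv
    refine ⟨w i₀, -(v i₀), Or.inr (neg_ne_zero.2 hi₀), fun j => ?_⟩
    have := h i₀ j
    linarith

section

variable {t y z : ℝ} (ht : 1 ≤ t) (ht2 : t ≤ 2) {c : ℝ} {k : ℕ} (hc : 0 < c) (hc1 : c ≤ 1)
  (M1 : ∀ a b d : ℤ, ∀ H : ℝ, 1 ≤ H → d ≠ 0 → |(b : ℝ)| ≤ H → |(d : ℝ)| ≤ H → c ≤ H ^ k * |(a : ℝ) + b * t + d * y|)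
  (M2 : ∀ A B C : ℤ, ∀ H : ℝ, 1 ≤ H → ¬ (A = 0 ∧ B = 0 ∧ C = 0) → |(A : ℝ)| ≤ H → |(B : ℝ)| ≤ H → |(C : ℝ)| ≤ H →
    c ≤ H ^ k * |(A : ℝ) * t ^ 2 + B * t + C|)

include ht ht2 hc hc1 M1 M2

/-- with the last coordinate of `u` different from `0` -/
lemma three' (X : ℝ) (hX : 1 ≤ X) (u v w : Fin 5 → ℤ) (hu : ∀ i, |(u i : ℝ)| ≤ X) (hv : ∀ i, |(v i : ℝ)| ≤ X)
    (hw : ∀ i, |(w i : ℝ)| ≤ X) (h4 : u 4 ≠ 0)
    (hLu : 2 ^ (2 * k + 2) * (X ^ (4 * k + 3) * |L t y z u|) < c ^ 2 / (30 * 14 ^ k))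
    (hLv : 2 ^ (2 * k + 2) * (X ^ (4 * k + 3) * |L t y z v|) < c ^ 2 / (30 * 14 ^ k))
    (hLw : 2 ^ (2 * k + 2) * (X ^ (4 * k + 3) * |L t y z w|) < c ^ 2 / (30 * 14 ^ k)) :
    ∃ α β γ : ℤ, (α ≠ 0 ∨ β ≠ 0 ∨ γ ≠ 0) ∧ ∀ i, α * u i + β * v i + γ * w i = 0 := by
  have hX0 : 0 < X := by linarith
  obtain ⟨comb, hcomb⟩ : ∃ comb : (Fin 5 → ℤ) → (Fin 5 → ℤ), comb = fun x => fun i => x 4 * u i - u 4 * x i := ⟨_, rfl⟩
  have hc4 : ∀ x, comb x 4 = 0 := by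
    intro x
    rw [hcomb]
    show x 4 * u 4 - u 4 * x 4 = 0
    ring
  have hbd : ∀ x : Fin 5 → ℤ, (∀ i, |(x i : ℝ)| ≤ X) → ∀ i, |(comb x i : ℝ)| ≤ 2 * X ^ 2 := by
    intro x hx i
    rw [hcomb]
    show |((x 4 * u i - u 4 * x i : ℤ) : ℝ)| ≤ _
    push_cast
    have h1 : |(x 4 : ℝ) * u i| ≤ X ^ 2 := by
      rw [abs_mul, sq]
      exact mul_le_mul (hx 4) (hu i) (abs_nonneg _) hX0.le
    have h2 : |(u 4 : ℝ) * x i| ≤ X ^ 2 := by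
      rw [abs_mul, sq]
      exact mul_le_mul (hu 4) (hx i) (abs_nonneg _) hX0.le
    have h3 := abs_sub ((x 4 : ℝ) * u i) ((u 4 : ℝ) * x i)
    linarith
  have hX2 : 1 ≤ 2 * X ^ 2 := by nlinarith
  have hsm : ∀ x : Fin 5 → ℤ, (∀ i, |(x i : ℝ)| ≤ X) → 2 ^ (2 * k + 2) * (X ^ (4 * k + 3) * |L t y z x|) < c ^ 2 / (30 * 14 ^ k) →
      (2 * X ^ 2) ^ (2 * k + 1) * |L t y z (comb x)| < c ^ 2 / (30 * 14 ^ k) := by
    intro x hx hLx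
    have h1 : L t y z (comb x) = (x 4 : ℝ) * L t y z u - (u 4 : ℝ) * L t y z x := by
      rw [hcomb]
      exact L_comb t y z (x 4) (u 4) u x
    obtain ⟨m, hm⟩ : ∃ m, m = max |L t y z u| |L t y z x| := ⟨_, rfl⟩
    have hmu : |L t y z u| ≤ m := by rw [hm]; exact le_max_left _ _
    have hmx : |L t y z x| ≤ m := by rw [hm]; exact le_max_right _ _
    have h2 : |L t y z (comb x)| ≤ 2 * X * m := by
      rw [h1]
      have e1 : |(x 4 : ℝ) * L t y z u| ≤ X * m := by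
        rw [abs_mul]
        exact mul_le_mul (hx 4) hmu (abs_nonneg _) hX0.le
      have e2 : |(u 4 : ℝ) * L t y z x| ≤ X * m := by
        rw [abs_mul]
        exact mul_le_mul (hu 4) hmx (abs_nonneg _) hX0.le
      have e3 := abs_sub ((x 4 : ℝ) * L t y z u) ((u 4 : ℝ) * L t y z x)
      linarith
    have h3 : 2 ^ (2 * k + 2) * (X ^ (4 * k + 3) * m) < c ^ 2 / (30 * 14 ^ k) := by
      rcases max_cases |L t y z u| |L t y z x| with ⟨h, -⟩ | ⟨h, -⟩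
      · rw [hm, h]; exact hLu
      · rw [hm, h]; exact hLx
    refine lt_of_le_of_lt ?_ h3
    calc (2 * X ^ 2) ^ (2 * k + 1) * |L t y z (comb x)| ≤ (2 * X ^ 2) ^ (2 * k + 1) * (2 * X * m) :=
          mul_le_mul_of_nonneg_left h2 (by positivity)
      _ = 2 ^ (2 * k + 2) * (X ^ (4 * k + 3) * m) := by
          rw [mul_pow, ← pow_mul]
          ring
  have hpr := two ht ht2 hc hc1 M1 M2 (2 * X ^ 2) hX2 (comb v) (comb w) (hbd v hv) (hbd w hw) (hc4 v) (hc4 w)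
    (hsm v hv hLv) (hsm w hw hLw)
  obtain ⟨α, β, hne, h⟩ := dep_of_prop hpr
  refine ⟨α * v 4 + β * w 4, -(α * u 4), -(β * u 4), ?_, fun i => ?_⟩
  · rcases hne with h1 | h1
    · exact Or.inr (Or.inl (neg_ne_zero.2 (mul_ne_zero h1 h4)))
    · exact Or.inr (Or.inr (neg_ne_zero.2 (mul_ne_zero h1 h4)))
  · have := h i
    rw [hcomb] at this
    have h2 : α * (v 4 * u i - u 4 * v i) + β * (w 4 * u i - u 4 * w i) = 0 := this
    linarith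

lemma three (X : ℝ) (hX : 1 ≤ X) (u v w : Fin 5 → ℤ) (hu : ∀ i, |(u i : ℝ)| ≤ X) (hv : ∀ i, |(v i : ℝ)| ≤ X)
    (hw : ∀ i, |(w i : ℝ)| ≤ X)
    (hLu : 2 ^ (2 * k + 2) * (X ^ (4 * k + 3) * |L t y z u|) < c ^ 2 / (30 * 14 ^ k))
    (hLv : 2 ^ (2 * k + 2) * (X ^ (4 * k + 3) * |L t y z v|) < c ^ 2 / (30 * 14 ^ k))
    (hLw : 2 ^ (2 * k + 2) * (X ^ (4 * k + 3) * |L t y z w|) < c ^ 2 / (30 * 14 ^ k)) :
    ∃ α β γ : ℤ, (α ≠ 0 ∨ β ≠ 0 ∨ γ ≠ 0) ∧ ∀ i, α * u i + β * v i + γ * w i = 0 := by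
  by_cases h4 : u 4 = 0
  · by_cases h4' : v 4 = 0
    · have hle : ∀ x : Fin 5 → ℤ, 2 ^ (2 * k + 2) * (X ^ (4 * k + 3) * |L t y z x|) < c ^ 2 / (30 * 14 ^ k) →
          X ^ (2 * k + 1) * |L t y z x| < c ^ 2 / (30 * 14 ^ k) := by
        intro x hx
        refine lt_of_le_of_lt ?_ hx
        have h1 : X ^ (2 * k + 1) ≤ X ^ (4 * k + 3) := pow_le_pow_right₀ hX (by omega)
        have h2 : (1 : ℝ) ≤ 2 ^ (2 * k + 2) := one_le_pow₀ (by norm_num)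
        have h3 : X ^ (2 * k + 1) * |L t y z x| ≤ X ^ (4 * k + 3) * |L t y z x| := mul_le_mul_of_nonneg_right h1 (abs_nonneg _)
        have h4 : X ^ (4 * k + 3) * |L t y z x| ≤ 2 ^ (2 * k + 2) * (X ^ (4 * k + 3) * |L t y z x|) :=
          le_mul_of_one_le_left (by positivity) h2
        exact h3.trans h4
      obtain ⟨α, β, hne, h⟩ := dep_of_prop (two ht ht2 hc hc1 M1 M2 X hX u v hu hv h4 h4' (hle u hLu) (hle v hLv))
      refine ⟨α, β, 0, ?_, fun i => by rw [h i, zero_mul, zero_add]⟩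
      rcases hne with h1 | h1
      · exact Or.inl h1
      · exact Or.inr (Or.inl h1)
    · obtain ⟨α, β, γ, hne, h⟩ := three' ht ht2 hc hc1 M1 M2 X hX v u w hv hu hw h4' hLv hLu hLw
      refine ⟨β, α, γ, ?_, fun i => ?_⟩
      · rcases hne with h1 | h1 | h1
        · exact Or.inr (Or.inl h1)
        · exact Or.inl h1
        · exact Or.inr (Or.inr h1)
      · have := h i
        linarith
  · exact three' ht ht2 hc hc1 M1 M2 X hX u v w hu hv hw h4 hLu hLv hLw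

end

end Pool.Agent.V11210.ZZ
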